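import Pool.Agent.N783.PF.Lat
import Pool.Agent.N169.PP.SD

/-!
# The ideal `I` with `I ^ 2 = α O` is self-dual (`S_SD`)

Project PF (helper783), by helper862, after `Pool/Agent/N776/PQ/Sd.lean` (helper776).
-/

set_option autoImplicit false
set_option linter.all false

open Polynomial IsDedekindDomain Matrix NumberField nonZeroDivisors
open scoped Classical

namespace Pool.Agent.N862.PF

open Pool.Agent.N783.PF
open Pool.Agent.N874.PP (Ev Sq1 U0)
open Pool.Agent.N169.PP (exists_sqrt)

section gen

variable {F L : Type} [Field F] [NumberField F] [Field L] [NumberField L] [Algebra F L]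
  {g : ℕ} {f : (𝓞 F)[X]} {θ : L}

theorem top_pow (h : IsGen g f θ) (m : ℕ) (hm : m ≤ 2 * g) :
    h.top (θ ^ m) = if m = 2 * g then 1 else 0 := by
  have e1 : θ ^ m = h.basis ⟨m, by omega⟩ := by rw [h.basis_apply]
  rw [e1]
  unfold IsGen.top
  rw [Module.Basis.coord_apply, Module.Basis.repr_self, Finsupp.single_apply]
  congr 1
  rw [Fin.ext_iff, Fin.val_last]

theorem int_iff (x : L) : IsIntegral ℤ x ↔ ∃ z : 𝓞 L, algebraMap (𝓞 L) L z = x :=
  IsIntegralClosure.isIntegral_iff (A := 𝓞 L)

theorem theta_int (h : IsGen g f θ) : IsIntegral ℤ θ := by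
  have h1 : IsIntegral (𝓞 F) θ := by
    refine ⟨f, h.mon, ?_⟩
    have h2 := h.root
    rw [fF, aeval_def, eval₂_map, ← IsScalarTower.algebraMap_eq] at h2
    exact h2
  exact isIntegral_trans θ h1

theorem theta_ex (h : IsGen g f θ) : ∃ t : 𝓞 L, algebraMap (𝓞 L) L t = θ :=
  (int_iff θ).1 (theta_int h)

theorem sum_eq (h : IsGen g f θ) (z : L) :
    z = ∑ i : Fin (2 * g + 1), h.basis.repr z i • θ ^ (i : ℕ) := by
  conv_lhs => rw [← h.basis.sum_repr z]
  refine Finset.sum_congr rfl fun i _ => ?_
  rw [h.basis_apply]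

theorem top_int (h : IsGen g f θ)
    (hint : ∀ x : L, IsIntegral ℤ x ↔ ∃ v : Fin (2 * g + 1) → 𝓞 F,
      x = ∑ i, algebraMap F L (v i : F) * θ ^ (i : ℕ)) {x : L}
    (hx : IsIntegral ℤ x) : h.top x ∈ integralClosure ℤ F := by
  obtain ⟨v, hv⟩ := (hint x).mp hx
  rw [hv, map_sum]
  refine sum_mem fun i _ => ?_
  rw [← Algebra.smul_def, map_smul, smul_eq_mul, top_pow h i (by omega)]
  refine mul_mem ?_ ?_
  · exact (v i).2
  · split_ifs
    · exact one_mem _
    · exact zero_mem _

/-- an element with integral moments is integral -/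
theorem int_of_top (h : IsGen g f θ)
    (hint : ∀ x : L, IsIntegral ℤ x ↔ ∃ v : Fin (2 * g + 1) → 𝓞 F,
      x = ∑ i, algebraMap F L (v i : F) * θ ^ (i : ℕ)) {z : L}
    (hz : ∀ m ≤ 2 * g, h.top (z * θ ^ m) ∈ integralClosure ℤ F) : IsIntegral ℤ z := by
  have key : ∀ m : ℕ, ∀ i : Fin (2 * g + 1), (i : ℕ) + m = 2 * g →
      h.basis.repr z i ∈ integralClosure ℤ F := by
    intro m
    induction m using Nat.strong_induction_on with
    | _ m ih =>
      intro i him
      have h1 : z * θ ^ m = ∑ l : Fin (2 * g + 1), h.basis.repr z l • θ ^ ((l : ℕ) + m) := by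
        conv_lhs => rw [sum_eq h z, Finset.sum_mul]
        refine Finset.sum_congr rfl fun l _ => ?_
        rw [pow_add, Algebra.smul_def, Algebra.smul_def]
        ring
      have h2 := hz m (by omega)
      rw [h1, map_sum, ← Finset.add_sum_erase _ _ (Finset.mem_univ i), map_smul, smul_eq_mul,
        top_pow h _ (by omega), if_pos him, mul_one] at h2
      have h3 : ∑ l ∈ Finset.univ.erase i, h.top (h.basis.repr z l • θ ^ ((l : ℕ) + m)) ∈
          integralClosure ℤ F := by
        refine sum_mem fun l hl => ?_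
        have hli : l ≠ i := (Finset.mem_erase.mp hl).1
        have hli' : (l : ℕ) ≠ i := fun hh => hli (Fin.ext hh)
        rw [map_smul, smul_eq_mul]
        rcases lt_or_gt_of_ne hli' with hlt | hgt
        · rw [top_pow h _ (by omega), if_neg (by omega), mul_zero]
          exact zero_mem _
        · refine mul_mem (ih (2 * g - l) (by omega) l (by omega)) ?_
          exact top_int h hint ((theta_int h).pow _)
      have h4 := sub_mem h2 h3
      rwa [add_sub_cancel_right] at h4
  rw [sum_eq h z]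
  refine IsIntegral.sum _ fun i _ => ?_
  rw [Algebra.smul_def]
  have hk : IsIntegral ℤ (h.basis.repr z i) := key (2 * g - i) i (by omega)
  exact (hk.map (algebraMap F L).toIntAlgHom).mul ((theta_int h).pow _)

end gen

/-- **SD.** -/
theorem sd (hI : S_INT) : S_SD := by
  intro g F L _ _ _ _ _ f θ hc hs α hα hev
  have hint := hI g F L f θ hc hs
  obtain ⟨I, h0, hII⟩ := exists_sqrt α hα hev
  obtain ⟨t, ht⟩ := theta_ex hc
  -- products
  have hprod : ∀ x ∈ I, ∀ y ∈ I, IsIntegral ℤ (x * y / α) := by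
    intro x hx y hy
    have h1 : x * y ∈ FractionalIdeal.spanSingleton (𝓞 L)⁰ α := by
      rw [← hII]
      exact FractionalIdeal.mul_mem_mul hx hy
    obtain ⟨z, hz⟩ := (FractionalIdeal.mem_spanSingleton _).1 h1
    rw [← hz, Algebra.smul_def, mul_div_cancel_right₀ _ hα]
    exact (int_iff _).2 ⟨z, rfl⟩
  have hdual : ∀ y : L, (∀ x ∈ I, IsIntegral ℤ (x * y / α)) → y ∈ I := by
    intro y hy
    have h1 : FractionalIdeal.spanSingleton (𝓞 L)⁰ y * I ≤ I * I := by
      rw [FractionalIdeal.mul_le]
      intro u hu w hw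
      rw [hII]
      obtain ⟨z, hz⟩ := (FractionalIdeal.mem_spanSingleton _).1 hu
      obtain ⟨z', hz'⟩ := (int_iff _).1 (hy w hw)
      refine (FractionalIdeal.mem_spanSingleton _).2 ⟨z * z', ?_⟩
      rw [← hz, Algebra.smul_def, Algebra.smul_def, map_mul, hz']
      field_simp
    have h3 : FractionalIdeal.spanSingleton (𝓞 L)⁰ y ≤ I := by
      have := mul_le_mul_left h1 I⁻¹
      rwa [mul_assoc, mul_inv_cancel₀ h0, mul_assoc, mul_inv_cancel₀ h0, mul_one, mul_one] at this
    exact FractionalIdeal.spanSingleton_le_iff_mem.1 h3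
  let Λ : Submodule (𝓞 F) L := (I : Submodule (𝓞 L) L).restrictScalars (𝓞 F)
  have hΛ : ∀ x : L, x ∈ Λ ↔ x ∈ I := fun x => Iff.rfl
  refine ⟨Λ, ?_, ?_⟩
  · intro x
    rw [hΛ]
    constructor
    · intro hx
      rw [sq]
      exact hprod x hx x hx
    · intro hx
      apply hdual
      intro w hw
      have h1 : IsIntegral ℤ ((w * x / α) ^ 2) := by
        have h2 : (w * x / α) ^ 2 = (w * w / α) * (x ^ 2 / α) := by
          field_simp
        rw [h2]
        exact (hprod w hw w hw).mul hx
      exact IsIntegral.of_pow two_pos h1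
  · constructor
    · haveI : IsNoetherian (𝓞 L) (I : Submodule (𝓞 L) L) := FractionalIdeal.isNoetherian I
      haveI : Module.Finite (𝓞 L) (I : Submodule (𝓞 L) L) := inferInstance
      haveI h2 : Module.Finite (𝓞 F) (I : Submodule (𝓞 L) L) := Module.Finite.trans (𝓞 L) _
      haveI h3 : Module.Finite (𝓞 F) Λ := h2
      exact Module.Finite.iff_fg.1 h3
    · intro x
      obtain ⟨y, hy, hy0⟩ : ∃ y ∈ I, y ≠ 0 := by
        by_contra hcon
        push Not at hcon
        apply h0
        rw [FractionalIdeal.eq_zero_iff]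
        exact hcon
      have halg : IsAlgebraic ℤ (x / y) :=
        (IsFractionRing.isAlgebraic_iff ℤ ℚ L).2 (Algebra.IsAlgebraic.isAlgebraic (x / y))
      obtain ⟨b, hb0, hb⟩ := halg.exists_integral_multiple
      refine ⟨(b : 𝓞 F), by exact_mod_cast hb0, ?_⟩
      rw [hΛ]
      obtain ⟨z, hz⟩ := (int_iff _).1 hb
      have h4 : (b : 𝓞 F) • x = z • y := by
        rw [Algebra.smul_def, Algebra.smul_def, hz]
        rw [zsmul_eq_mul, map_intCast]
        field_simp
      rw [h4]
      exact Submodule.smul_mem (I : Submodule (𝓞 L) L) z hy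
    · intro x hx
      rw [hΛ] at hx ⊢
      rw [← ht, ← Algebra.smul_def]
      exact Submodule.smul_mem (I : Submodule (𝓞 L) L) t hx
    · intro x hx y hy
      exact top_int hc hint (hprod x hx y hy)
    · intro y hy
      rw [hΛ]
      apply hdual
      intro x hx
      apply int_of_top hc hint
      intro m _
      have h5 : x * y / α * θ ^ m = (t ^ m • x) * y / α := by
        rw [Algebra.smul_def, map_pow, ht]
        ring
      rw [h5]
      exact hy _ (Submodule.smul_mem (I : Submodule (𝓞 L) L) (t ^ m) hx)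

end Pool.Agent.N862.PF
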