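import Pool.Agent.N862.PF.SD

/-!
# Local squares give a distinguished vector modulo `𝔮` (`S_TV`)

Project PF (helper783), by helper862, after `Pool/Agent/N776/PQ/Tv.lean` (helper776).
-/

set_option autoImplicit false
set_option linter.all false

open Polynomial IsDedekindDomain Matrix NumberField WithZero
open scoped Classical

namespace Pool.Agent.N862.PF

open Pool.Agent.N783.PF
open Pool.Agent.N874.PP (Ev Sq1 U0)

/-- a squarefree polynomial all of whose irreducible factors divide `p` divides `p` -/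
theorem dvd_of_sqf {κ : Type} [Field κ] {f p : κ[X]} (hf0 : f ≠ 0) (hf : Squarefree f)
    (h : ∀ m, Irreducible m → m ∣ f → m ∣ p) : f ∣ p := by
  obtain ⟨e, he⟩ := EuclideanDomain.gcd_dvd_left f p
  by_cases hu : IsUnit e
  · have h1 : Associated (EuclideanDomain.gcd f p) f := by
      obtain ⟨u, rfl⟩ := hu
      exact ⟨u, he.symm⟩
    exact h1.symm.dvd.trans (EuclideanDomain.gcd_dvd_right f p)
  · exfalso
    have he0 : e ≠ 0 := by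
      rintro rfl
      exact hf0 (by rw [he, mul_zero])
    obtain ⟨m, hm, hme⟩ := WfDvdMonoid.exists_irreducible_factor hu he0
    have hmf : m ∣ f := by
      rw [he]
      exact hme.trans (dvd_mul_left _ _)
    have hmd : m ∣ EuclideanDomain.gcd f p := EuclideanDomain.dvd_gcd hmf (h m hm hmf)
    have h2 : m * m ∣ f := by
      rw [he]
      exact mul_dvd_mul hmd hme
    exact hm.not_isUnit (hf m h2)

section main

variable {F L : Type} [Field F] [NumberField F] [Field L] [NumberField L] [Algebra F L]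
  {g : ℕ} {f : (𝓞 F)[X]} {θ : L}

/-- evaluation at `t` -/
noncomputable def ev (F : Type) [Field F] [NumberField F] {L : Type} [Field L] [NumberField L]
    [Algebra F L] (t : 𝓞 L) : (𝓞 F)[X] →+* 𝓞 L :=
  eval₂RingHom (algebraMap (𝓞 F) (𝓞 L)) t

theorem ev_L {t : 𝓞 L} (ht : algebraMap (𝓞 L) L t = θ) (p : (𝓞 F)[X]) :
    algebraMap (𝓞 L) L (ev F t p) = aeval θ p := by
  unfold ev
  rw [coe_eval₂RingHom, hom_eval₂, ht, aeval_def, ← IsScalarTower.algebraMap_eq]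

theorem ev_f (h : IsGen g f θ) {t : 𝓞 L} (ht : algebraMap (𝓞 L) L t = θ) : ev F t f = 0 := by
  apply IsFractionRing.injective (𝓞 L) L
  rw [ev_L ht, map_zero]
  have h2 := h.root
  rw [fF, aeval_def, eval₂_map, ← IsScalarTower.algebraMap_eq] at h2
  exact h2

theorem ev_X (t : 𝓞 L) : ev F t X = t := by simp [ev]

theorem ev_C (t : 𝓞 L) (c : 𝓞 F) : ev F t (C c) = algebraMap (𝓞 F) (𝓞 L) c := by simp [ev]

/-- a polynomial of small degree with value zero -/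
theorem small_zero (h : IsGen g f θ) {r : (𝓞 F)[X]}
    (hr : r.degree < ((2 * g + 1 : ℕ) : WithBot ℕ))
    (h0 : aeval θ r = 0) : r = 0 := by
  have hli := Fintype.linearIndependent_iff.1 h.basis.linearIndependent
  have h1 : ∑ i : Fin (2 * g + 1), ((r.coeff i : 𝓞 F) : F) • h.basis i = 0 := by
    rw [← h0, aeval_def, eval₂_eq_sum_range' (algebraMap (𝓞 F) L) (n := 2 * g + 1),
      ← Fin.sum_univ_eq_sum_range (fun i => algebraMap (𝓞 F) L (r.coeff i) * θ ^ i)]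
    · refine Finset.sum_congr rfl fun i _ => ?_
      rw [h.basis_apply, Algebra.smul_def, IsScalarTower.algebraMap_apply (𝓞 F) F L]
    · by_cases hr0 : r = 0
      · rw [hr0]; simp
      · exact (natDegree_lt_iff_degree_lt hr0).2 hr
  have h2 := hli _ h1
  ext1 i
  rw [coeff_zero]
  by_cases hi : i < 2 * g + 1
  · have h3 := h2 ⟨i, hi⟩
    exact_mod_cast h3
  · exact coeff_eq_zero_of_degree_lt (hr.trans_le (by exact_mod_cast (not_lt.1 hi)))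

theorem deg_f (h : IsGen g f θ) : f.degree = ((2 * g + 1 : ℕ) : WithBot ℕ) := by
  rw [degree_eq_natDegree h.mon.ne_zero, h.deg]

theorem ev_ker (h : IsGen g f θ) {t : 𝓞 L} (ht : algebraMap (𝓞 L) L t = θ) {p : (𝓞 F)[X]}
    (hp : ev F t p = 0) : f ∣ p := by
  rw [← modByMonic_eq_zero_iff_dvd h.mon]
  refine small_zero h ?_ ?_
  · rw [← deg_f h]
    exact degree_modByMonic_lt _ h.mon
  · rw [← ev_L ht]
    have h1 := modByMonic_add_div p f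
    have h2 := congrArg (ev F t) h1
    rw [map_add, map_mul, ev_f h ht, zero_mul, add_zero, hp] at h2
    rw [h2, map_zero]

/-- integers as values of polynomials -/
theorem ex_poly (hI : S_INT) (h : IsGen g f θ) (hsq : SqF g f) {t : 𝓞 L}
    (ht : algebraMap (𝓞 L) L t = θ) (z : 𝓞 L) : ∃ p : (𝓞 F)[X],
      p.degree < ((2 * g + 1 : ℕ) : WithBot ℕ) ∧ ev F t p = z := by
  obtain ⟨v, hv⟩ := (hI g F L f θ h hsq _).1 ((int_iff _).2 ⟨z, rfl⟩)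
  refine ⟨∑ i : Fin (2 * g + 1), C (v i) * X ^ (i : ℕ), degree_sum_fin_lt _, ?_⟩
  apply IsFractionRing.injective (𝓞 L) L
  rw [ev_L ht, hv, map_sum]
  refine Finset.sum_congr rfl fun i _ => ?_
  rw [map_mul, map_pow, aeval_X, aeval_C, IsScalarTower.algebraMap_apply (𝓞 F) F L]

theorem ev_surj (hI : S_INT) (h : IsGen g f θ) (hsq : SqF g f) {t : 𝓞 L}
    (ht : algebraMap (𝓞 L) L t = θ) : Function.Surjective (ev F t) := fun z => by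
  obtain ⟨p, -, hp⟩ := ex_poly hI h hsq ht z
  exact ⟨p, hp⟩

/-- the map to `AdjoinRoot m` for a factor `m` of `f` modulo `𝔮` -/
theorem ex_psi (hI : S_INT) (h : IsGen g f θ) (hsq : SqF g f) {t : 𝓞 L}
    (ht : algebraMap (𝓞 L) L t = θ) {κ : Type} [Field κ] (φ : 𝓞 F →+* κ) (m : κ[X])
    (hm : m ∣ f.map φ) : ∃ ψ : 𝓞 L →+* AdjoinRoot m,
      ∀ p : (𝓞 F)[X], ψ (ev F t p) = AdjoinRoot.mk m (p.map φ) := by
  have hk : RingHom.ker (ev F t) ≤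
      RingHom.ker ((AdjoinRoot.mk m).comp (mapRingHom φ)) := by
    intro p hp
    rw [RingHom.mem_ker] at hp ⊢
    obtain ⟨c, rfl⟩ := ev_ker h ht hp
    simp only [RingHom.comp_apply, coe_mapRingHom, Polynomial.map_mul, map_mul]
    rw [AdjoinRoot.mk_eq_zero.2 hm, zero_mul]
  refine ⟨(ev F t).liftOfSurjective (ev_surj hI h hsq ht) ⟨_, hk⟩, fun p => ?_⟩
  rw [RingHom.liftOfRightInverse_comp_apply]
  rfl

/-- the prime of a factor of `f` modulo `𝔮` -/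
theorem ex_prime (hI : S_INT) (h : IsGen g f θ) (hsq : SqF g f) {t : 𝓞 L}
    (ht : algebraMap (𝓞 L) L t = θ) {𝔮 : Ideal (𝓞 F)} (hq0 : 𝔮 ≠ ⊥) {κ : Type} [Field κ]
    (φ : 𝓞 F →+* κ) (hφ : ∀ a ∈ 𝔮, φ a = 0) (m : κ[X])
    (hmi : Irreducible m) (hm : m ∣ f.map φ) : ∃ 𝔓 : HeightOneSpectrum (𝓞 L), Ov 𝔮 𝔓 ∧
      ∀ p : (𝓞 F)[X], ev F t p ∈ 𝔓.asIdeal ↔ m ∣ p.map φ := by
  obtain ⟨ψ, hψ⟩ := ex_psi hI h hsq ht φ m hm
  haveI i2 : Fact (Irreducible m) := ⟨hmi⟩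
  have hq1 : ∀ a ∈ 𝔮, algebraMap (𝓞 F) (𝓞 L) a ∈ RingHom.ker ψ := by
    intro a ha
    rw [RingHom.mem_ker, ← ev_C t a, hψ, Polynomial.map_C, hφ a ha, map_zero, map_zero]
  refine ⟨⟨RingHom.ker ψ, RingHom.ker_isPrime ψ, fun h0 => ?_⟩, hq1, fun p => ?_⟩
  · obtain ⟨a, ha, ha0⟩ := Submodule.exists_mem_ne_zero_of_ne_bot hq0
    have h1 := hq1 a ha
    rw [h0, Ideal.mem_bot] at h1
    exact ha0 ((map_eq_zero_iff _ (FaithfulSMul.algebraMap_injective (𝓞 F) (𝓞 L))).1 h1)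
  · show ev F t p ∈ RingHom.ker ψ ↔ _
    rw [RingHom.mem_ker, hψ, AdjoinRoot.mk_eq_zero]

/-- an element of all primes over `𝔮` -/
theorem key (hI : S_INT) (h : IsGen g f θ) (hsq : SqF g f) {t : 𝓞 L}
    (ht : algebraMap (𝓞 L) L t = θ) {𝔮 : Ideal (𝓞 F)} (hq0 : 𝔮 ≠ ⊥) {κ : Type} [Field κ]
    (φ : 𝓞 F →+* κ) (hφ : ∀ a ∈ 𝔮, φ a = 0) (hsep : (f.map φ).Separable) (p : (𝓞 F)[X])
    (hp : p.degree < ((2 * g + 1 : ℕ) : WithBot ℕ))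
    (hP : ∀ 𝔓 : HeightOneSpectrum (𝓞 L), Ov 𝔮 𝔓 → ev F t p ∈ 𝔓.asIdeal) : p.map φ = 0 := by
  have hmon : (f.map φ).Monic := h.mon.map φ
  have h1 : f.map φ ∣ p.map φ := by
    refine dvd_of_sqf hmon.ne_zero hsep.squarefree fun m hm hmf => ?_
    obtain ⟨𝔓, ov, hk⟩ := ex_prime hI h hsq ht hq0 φ hφ m hm hmf
    exact (hk p).1 (hP 𝔓 ov)
  by_contra hne
  have h2 := degree_le_of_dvd h1 hne
  rw [degree_eq_natDegree hmon.ne_zero, h.mon.natDegree_map, h.deg] at h2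
  exact absurd (h2.trans degree_map_le) (not_le.2 hp)

/-! ### The lattice -/

theorem prod_int {α : L} {Λ : Submodule (𝓞 F) L} (hSD : SDn α Λ) {x y : L} (hx : x ∈ Λ)
    (hy : y ∈ Λ) : IsIntegral ℤ (x * y / α) := by
  have h1 : IsIntegral ℤ ((x * y / α) ^ 2) := by
    have h2 : (x * y / α) ^ 2 = (x ^ 2 / α) * (y ^ 2 / α) := by
      ring
    rw [h2]
    exact ((hSD x).1 hx).mul ((hSD y).1 hy)
  exact IsIntegral.of_pow two_pos h1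

theorem mul_mem_lat {α : L} {Λ : Submodule (𝓞 F) L} (hSD : SDn α Λ) (c : 𝓞 L) {x : L}
    (hx : x ∈ Λ) : algebraMap (𝓞 L) L c * x ∈ Λ := by
  rw [hSD]
  have h2 : (algebraMap (𝓞 L) L c * x) ^ 2 / α = (algebraMap (𝓞 L) L (c ^ 2)) * (x ^ 2 / α) := by
    rw [map_pow]
    ring
  rw [h2]
  exact ((int_iff _).2 ⟨_, rfl⟩).mul ((hSD x).1 hx)

/-- an element of the lattice which is good at `𝔓` -/
theorem stepA {α : L} {Λ : Submodule (𝓞 F) L} (hα : α ≠ 0) (hSD : SDn α Λ)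
    {𝔓 : HeightOneSpectrum (𝓞 L)} (hs : Sq1 𝔓 α) :
    ∃ (y : L) (t u : 𝓞 L), y ∈ Λ ∧ t ∉ 𝔓.asIdeal ∧ algebraMap (𝓞 L) L u = y * y / α ∧
      u - t ^ 2 ∈ 𝔓.asIdeal := by
  obtain ⟨s, hs⟩ := hs
  have hvα : 𝔓.valuation L α ≠ 0 := (Valuation.ne_zero_iff _).2 hα
  have hvs : 𝔓.valuation L (s ^ 2) = 𝔓.valuation L α := by
    have h1 : s ^ 2 = α - (α - s ^ 2) := by ring
    rw [h1]
    exact Valuation.map_sub_eq_of_lt_left _ hs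
  have hvs' : 𝔓.valuation L (s ^ 2 / α) = 1 := by
    rw [map_div₀, hvs, div_self hvα]
  obtain ⟨n, d, hnd⟩ := 𝔓.exists_primeCompl_mul_eq_of_integer (s ^ 2 / α) hvs'.le
  have hd : (d : 𝓞 L) ∉ 𝔓.asIdeal := d.2
  have hy : s * algebraMap (𝓞 L) L d ∈ Λ := by
    rw [hSD]
    have h1 : (s * algebraMap (𝓞 L) L d) ^ 2 / α = algebraMap (𝓞 L) L (d * n) := by
      rw [map_mul, ← hnd]
      ring
    rw [h1]
    exact (int_iff _).2 ⟨_, rfl⟩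
  obtain ⟨u, hu⟩ := (int_iff _).1 (prod_int hSD hy hy)
  refine ⟨_, d, u, hy, hd, hu, ?_⟩
  apply (𝔓.valuation_lt_one_iff_mem (K := L) _).1
  change 𝔓.valuation L (algebraMap (𝓞 L) L (u - d ^ 2)) < 1
  have h1 : algebraMap (𝓞 L) L (u - d ^ 2) = - ((algebraMap (𝓞 L) L d) ^ 2 * ((α - s ^ 2) / α)) := by
    rw [map_sub, map_pow, hu]
    field_simp
    ring
  rw [h1, Valuation.map_neg, map_mul, map_pow, map_div₀]
  have h2 : 𝔓.valuation L (α - s ^ 2) / 𝔓.valuation L α < 1 :=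
    (div_lt_one₀ (zero_lt_iff.2 hvα)).2 hs
  calc _ ≤ 1 * (𝔓.valuation L (α - s ^ 2) / 𝔓.valuation L α) :=
        mul_le_mul_left (pow_le_one₀ zero_le (𝔓.valuation_le_one (d : 𝓞 L))) _
    _ < 1 := by rw [one_mul]; exact h2

/-- an element of the lattice which is `1` at `𝔓` and small at the other primes of a finite set -/
theorem stepB {α : L} {Λ : Submodule (𝓞 F) L} (hα : α ≠ 0) (hSD : SDn α Λ)
    {𝔓 : HeightOneSpectrum (𝓞 L)} (hs : Sq1 𝔓 α) (T : Finset (HeightOneSpectrum (𝓞 L))) :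
    ∃ (x : L) (u : 𝓞 L), x ∈ Λ ∧ algebraMap (𝓞 L) L u = x * x / α ∧
      u - 1 ∈ 𝔓.asIdeal ∧ ∀ 𝔓' ∈ T, 𝔓' ≠ 𝔓 → u ∈ 𝔓'.asIdeal := by
  obtain ⟨y, t, u, hy, ht, hu, hut⟩ := stepA hα hSD hs
  have hex : ∀ 𝔓' : HeightOneSpectrum (𝓞 L), 𝔓' ≠ 𝔓 → ∃ p ∈ 𝔓'.asIdeal, p ∉ 𝔓.asIdeal := by
    intro 𝔓' hne
    by_contra hcon
    push Not at hcon
    exact hne (HeightOneSpectrum.ext (𝔓'.isMaximal.eq_of_le 𝔓.isPrime.ne_top hcon))
  have hex' : ∀ 𝔓' : HeightOneSpectrum (𝓞 L), ∃ p : 𝓞 L, p ∉ 𝔓.asIdeal ∧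
      (𝔓' ≠ 𝔓 → p ∈ 𝔓'.asIdeal) := by
    intro 𝔓'
    by_cases hne : 𝔓' = 𝔓
    · exact ⟨1, fun h1 => 𝔓.isPrime.ne_top ((Ideal.eq_top_iff_one _).2 h1),
        fun h2 => absurd hne h2⟩
    · obtain ⟨p, hp, hp'⟩ := hex 𝔓' hne
      exact ⟨p, hp', fun _ => hp⟩
  choose P hP hP' using hex'
  obtain ⟨p, hpdef⟩ : ∃ p : 𝓞 L, p = ∏ 𝔓' ∈ T, P 𝔓' := ⟨_, rfl⟩
  have hp : p ∉ 𝔓.asIdeal := by
    rw [hpdef]
    intro hmem
    obtain ⟨i, -, hi⟩ := (Ideal.IsPrime.prod_mem_iff (hp := 𝔓.isPrime)).1 hmem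
    exact hP i hi
  have hp' : ∀ 𝔓' ∈ T, 𝔓' ≠ 𝔓 → p ∈ 𝔓'.asIdeal := by
    intro 𝔓' h1 h2
    rw [hpdef, ← Finset.mul_prod_erase _ _ h1]
    exact 𝔓'.asIdeal.mul_mem_right _ (hP' 𝔓' h2)
  have hmax : 𝔓.asIdeal.IsMaximal := 𝔓.isMaximal
  have htp : t * p ∉ 𝔓.asIdeal := fun h => (𝔓.isPrime.mem_or_mem h).elim ht hp
  obtain ⟨c, i, hi, hci⟩ := hmax.exists_inv htp
  obtain ⟨ε, hε⟩ : ∃ ε, ε = c * p := ⟨_, rfl⟩
  have hεt : ε * t - 1 ∈ 𝔓.asIdeal := by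
    have : ε * t - 1 = -i := by rw [hε, ← hci]; ring
    rw [this]
    exact 𝔓.asIdeal.neg_mem hi
  refine ⟨algebraMap (𝓞 L) L ε * y, ε ^ 2 * u, mul_mem_lat hSD ε hy, ?_, ?_, ?_⟩
  · rw [map_mul, map_pow, hu]
    ring
  · have h1 : ε ^ 2 * u - 1 = ε ^ 2 * (u - t ^ 2) + (ε * t + 1) * (ε * t - 1) := by ring
    rw [h1]
    exact 𝔓.asIdeal.add_mem (𝔓.asIdeal.mul_mem_left _ hut) (𝔓.asIdeal.mul_mem_left _ hεt)
  · intro 𝔓' h1 h2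
    rw [hε, mul_pow, mul_assoc]
    refine 𝔓'.asIdeal.mul_mem_left _ (𝔓'.asIdeal.mul_mem_right _ ?_)
    exact Ideal.pow_mem_of_mem _ (hp' 𝔓' h1 h2) 2 two_pos

/-- finitely many primes over `𝔮` -/
theorem fin_ov {𝔮 : Ideal (𝓞 F)} (hq0 : 𝔮 ≠ ⊥) :
    {𝔓 : HeightOneSpectrum (𝓞 L) | Ov 𝔮 𝔓}.Finite := by
  obtain ⟨a, ha, ha0⟩ := Submodule.exists_mem_ne_zero_of_ne_bot hq0
  have h1 : Ideal.span {algebraMap (𝓞 F) (𝓞 L) a} ≠ ⊥ := by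
    rw [ne_eq, Ideal.span_singleton_eq_bot]
    exact fun h2 => ha0 ((map_eq_zero_iff _ (FaithfulSMul.algebraMap_injective (𝓞 F) (𝓞 L))).1 h2)
  refine (Ideal.finite_factors h1).subset fun 𝔓 h𝔓 => ?_
  simp only [Set.mem_setOf_eq] at h𝔓 ⊢
  rw [Ideal.dvd_span_singleton]
  exact h𝔓 a ha

end main

/-- **TV.** -/
theorem tv (hI : S_INT) : S_TV := by
  intro g F L _ _ _ _ _ f θ hG hsq α Λ hα hSD hLat 𝔮 hprime hq0 hsep hSq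
  have hint := hI g F L f θ hG hsq
  obtain ⟨t, ht⟩ := theta_ex hG
  have hfin := fin_ov (L := L) hq0
  set T : Finset (HeightOneSpectrum (𝓞 L)) := hfin.toFinset with hT
  have hTm : ∀ 𝔓 : HeightOneSpectrum (𝓞 L), 𝔓 ∈ T ↔ Ov 𝔮 𝔓 := fun 𝔓 => by
    rw [hT, Set.Finite.mem_toFinset]; rfl
  have hB : ∀ 𝔓 : HeightOneSpectrum (𝓞 L), ∃ (x : L) (u : 𝓞 L), 𝔓 ∈ T → (x ∈ Λ ∧
      algebraMap (𝓞 L) L u = x * x / α ∧
      u - 1 ∈ 𝔓.asIdeal ∧ ∀ 𝔓' ∈ T, 𝔓' ≠ 𝔓 → u ∈ 𝔓'.asIdeal) := by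
    intro 𝔓
    by_cases h : 𝔓 ∈ T
    · obtain ⟨x, u, h1⟩ := stepB hα hSD (hSq 𝔓 ((hTm _).1 h)) T
      exact ⟨x, u, fun _ => h1⟩
    · exact ⟨0, 0, fun h' => absurd h' h⟩
  choose x u hxu using hB
  obtain ⟨y, hydef⟩ : ∃ y : L, y = ∑ 𝔓 ∈ T, x 𝔓 := ⟨_, rfl⟩
  have hyΛ : y ∈ Λ := by
    rw [hydef]
    exact Submodule.sum_mem _ fun 𝔓 h => (hxu 𝔓 h).1
  -- the products
  have hW : ∀ 𝔓 𝔓' : HeightOneSpectrum (𝓞 L), ∃ w : 𝓞 L, 𝔓 ∈ T → 𝔓' ∈ T →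
      algebraMap (𝓞 L) L w = x 𝔓 * x 𝔓' / α := by
    intro 𝔓 𝔓'
    by_cases h : 𝔓 ∈ T
    · by_cases h' : 𝔓' ∈ T
      · obtain ⟨w, hw⟩ := (int_iff _).1 (prod_int hSD (hxu 𝔓 h).1 (hxu 𝔓' h').1)
        exact ⟨w, fun _ _ => hw⟩
      · exact ⟨0, fun _ h2 => absurd h2 h'⟩
    · exact ⟨0, fun h1 => absurd h1 h⟩
  choose w hw using hW
  have hinj : Function.Injective (algebraMap (𝓞 L) L) := IsFractionRing.injective (𝓞 L) L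
  have hwsq : ∀ 𝔓 ∈ T, ∀ 𝔓' ∈ T, w 𝔓 𝔓' ^ 2 = u 𝔓 * u 𝔓' := by
    intro 𝔓 h 𝔓' h'
    apply hinj
    rw [map_pow, map_mul, hw 𝔓 𝔓' h h', (hxu 𝔓 h).2.1, (hxu 𝔓' h').2.1]
    ring
  have hwd : ∀ 𝔓 ∈ T, w 𝔓 𝔓 = u 𝔓 := by
    intro 𝔓 h
    apply hinj
    rw [hw 𝔓 𝔓 h h, (hxu 𝔓 h).2.1]
  obtain ⟨z, hz⟩ : ∃ z : 𝓞 L, z = ∑ 𝔓 ∈ T, ∑ 𝔓' ∈ T, w 𝔓 𝔓' := ⟨_, rfl⟩
  have hzL : algebraMap (𝓞 L) L z = y ^ 2 / α := by
    rw [hz, map_sum, hydef, sq, Finset.sum_mul, Finset.sum_div]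
    refine Finset.sum_congr rfl fun 𝔓 h => ?_
    rw [map_sum, Finset.mul_sum, Finset.sum_div]
    exact Finset.sum_congr rfl fun 𝔓' h' => hw 𝔓 𝔓' h h'
  have hmemw : ∀ 𝔓₀ ∈ T, ∀ 𝔓 ∈ T, ∀ 𝔓' ∈ T, (𝔓 ≠ 𝔓₀ ∨ 𝔓' ≠ 𝔓₀) → w 𝔓 𝔓' ∈ 𝔓₀.asIdeal := by
    intro 𝔓₀ h0 𝔓 h 𝔓' h' hor
    apply 𝔓₀.isPrime.mem_of_pow_mem 2
    rw [hwsq 𝔓 h 𝔓' h']
    rcases hor with h1 | h1
    · exact 𝔓₀.asIdeal.mul_mem_right _ ((hxu 𝔓 h).2.2.2 𝔓₀ h0 h1.symm)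
    · exact 𝔓₀.asIdeal.mul_mem_left _ ((hxu 𝔓' h').2.2.2 𝔓₀ h0 h1.symm)
  have hz1 : ∀ 𝔓 : HeightOneSpectrum (𝓞 L), Ov 𝔮 𝔓 → z - 1 ∈ 𝔓.asIdeal := by
    intro 𝔓₀ hov
    have h0 : 𝔓₀ ∈ T := (hTm _).2 hov
    have e1 : z - 1 = (u 𝔓₀ - 1) + (∑ 𝔓' ∈ T.erase 𝔓₀, w 𝔓₀ 𝔓' +
        ∑ 𝔓 ∈ T.erase 𝔓₀, ∑ 𝔓' ∈ T, w 𝔓 𝔓') := by
      rw [hz, ← Finset.add_sum_erase _ _ h0, ← Finset.add_sum_erase _ (fun 𝔓' => w 𝔓₀ 𝔓') h0,
        hwd 𝔓₀ h0]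
      ring
    rw [e1]
    refine 𝔓₀.asIdeal.add_mem (hxu 𝔓₀ h0).2.2.1 (𝔓₀.asIdeal.add_mem ?_ ?_)
    · refine Ideal.sum_mem _ fun 𝔓' h' => ?_
      exact hmemw 𝔓₀ h0 𝔓₀ h0 𝔓' (Finset.mem_of_mem_erase h') (Or.inr (Finset.ne_of_mem_erase h'))
    · refine Ideal.sum_mem _ fun 𝔓 h => ?_
      refine Ideal.sum_mem _ fun 𝔓' h' => ?_
      exact hmemw 𝔓₀ h0 𝔓 (Finset.mem_of_mem_erase h) 𝔓' h' (Or.inl (Finset.ne_of_mem_erase h))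
  obtain ⟨p, hp1, hp2⟩ := ex_poly hI hG hsq ht (z - 1)
  haveI : 𝔮.IsPrime := hprime
  haveI hmax : 𝔮.IsMaximal := hprime.isMaximal hq0
  letI : Field (𝓞 F ⧸ 𝔮) := Ideal.Quotient.field 𝔮
  have hzero : p.map (Ideal.Quotient.mk 𝔮) = 0 := by
    refine key hI hG hsq ht hq0 (Ideal.Quotient.mk 𝔮)
      (fun a ha => Ideal.Quotient.eq_zero_iff_mem.2 ha) hsep p hp1 fun 𝔓 hov => ?_
    rw [hp2]
    exact hz1 𝔓 hov
  have hcoef : ∀ i, p.coeff i ∈ 𝔮 := by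
    intro i
    have h1 := congrArg (fun r => coeff r i) hzero
    simp only [coeff_map, coeff_zero] at h1
    exact Ideal.Quotient.eq_zero_iff_mem.1 h1
  refine ⟨y, hyΛ, 1, fun h1 => hprime.ne_top ((Ideal.eq_top_iff_one _).2 h1), fun m hm => ?_⟩
  -- the coefficients
  have hV : ∀ i : ℕ, ∃ b : 𝓞 F, (b : F) = hG.top (θ ^ (i + m)) := by
    intro i
    have h1 := top_int hG hint ((theta_int hG).pow (i + m))
    exact ⟨⟨_, h1⟩, rfl⟩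
  choose b hb using hV
  refine ⟨∑ i ∈ Finset.range (2 * g + 1), p.coeff i * b i,
    Ideal.sum_mem _ fun i _ => 𝔮.mul_mem_right _ (hcoef i), ?_⟩
  have h3 : θ ^ m * y ^ 2 / α = θ ^ m + ∑ i ∈ Finset.range (2 * g + 1),
      ((p.coeff i : 𝓞 F) : F) • θ ^ (i + m) := by
    have h4 : θ ^ m * y ^ 2 / α = θ ^ m * algebraMap (𝓞 L) L z := by
      rw [hzL]; ring
    have h5 : z = 1 + ev F t p := by rw [hp2]; ring
    rw [h4, h5, map_add, map_one, mul_add, mul_one, ev_L ht]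
    congr 1
    rw [aeval_def, eval₂_eq_sum_range' (algebraMap (𝓞 F) L) (n := 2 * g + 1), Finset.mul_sum]
    · refine Finset.sum_congr rfl fun i _ => ?_
      rw [Algebra.smul_def, IsScalarTower.algebraMap_apply (𝓞 F) F L, pow_add]
      ring
    · by_cases hr0 : p = 0
      · rw [hr0]; simp
      · exact (natDegree_lt_iff_degree_lt hr0).2 hp1
  rw [h3, map_add, map_sum, top_pow hG m hm]
  have h6 : ((∑ i ∈ Finset.range (2 * g + 1), p.coeff i * b i : 𝓞 F) : F) =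
      ∑ i ∈ Finset.range (2 * g + 1), hG.top (((p.coeff i : 𝓞 F) : F) • θ ^ (i + m)) := by
    have h7 : ((∑ i ∈ Finset.range (2 * g + 1), p.coeff i * b i : 𝓞 F) : F) =
        algebraMap (𝓞 F) F (∑ i ∈ Finset.range (2 * g + 1), p.coeff i * b i) := rfl
    rw [h7, map_sum]
    refine Finset.sum_congr rfl fun i _ => ?_
    rw [map_mul, map_smul, smul_eq_mul, ← hb i]
  rw [h6]
  split_ifs <;> simp

end Pool.Agent.N862.PF
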